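import Pool.Agent.H591R3.CEX.Cover2
import Pool.Agent.W900.CH.PLev

/-!
# Counterexample computations relative to changed random oracles

An adversary who knows the random oracle `O` changes, for all large `n`, at most `g n` of the
strings of length at most `n`; the result is the oracle `A`.

* If, for every `ε > 0`, `g n ≤ 2 ^ (n ^ ε)` for infinitely many `n`, then for almost every `O` and
  for all these `A`: for every `i`, some optimization problem `(C, ρ)` with `C` in `Π_i` relative to
  `A` is not computed by any type 1 counterexample computation with a `Σ_i` oracle relative to `A`.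
* Otherwise every oracle `O` can be changed such that, for every `i`, all optimization problems
  `(C, ρ)` with `C` in `Π_i` are computed by such computations relative to `A`.
-/

set_option autoImplicit false

namespace Pool.Agent.Results.MP_2b5695_lc.ChangedStrings

open Pool.Agent.NPC Pool.Agent.H620R2.Gauge Pool.Agent.H591R3.CEX
open Pool.Agent.H628R3.RO (randomOracle)
open Pool.Agent.W900.CH (Close)
open MeasureTheory

theorem result (g : ℕ → ℝ) :
    ((∀ ε : ℝ, 0 < ε → ∃ᶠ n : ℕ in Filter.atTop, g n ≤ 2 ^ (n : ℝ) ^ ε) →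
      ∀ᵐ O ∂randomOracle, ∀ A : Oracle, Close g O A → ∀ i : ℕ, ¬ Type1 A i) ∧
    ((¬ ∀ ε : ℝ, 0 < ε → ∃ᶠ n : ℕ in Filter.atTop, g n ≤ 2 ^ (n : ℝ) ^ ε) →
      ∀ O : Oracle, ∃ A : Oracle, Close g O A ∧ ∀ i : ℕ, Type1 A i) := by
  refine ⟨fun hg => ?_, fun hg O => ?_⟩
  · have h := Pool.Agent.W900.CH.ae_far_P (S := {A : Oracle | ∃ i, Type1 A i})
      (fun f hf => null_of_frequently3 f hf _ fun A hA => hA) hg
    filter_upwards [h] with O hO A hA i hi
    exact hO A hA ⟨i, hi⟩
  · push Not at hg
    obtain ⟨ε, hε, h⟩ := hg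
    obtain ⟨A, h1, h2⟩ := Pool.Agent.W900.CH.exists_close_P hε h O
    exact ⟨A, h1, fun i => type1_of_reduces h2 i⟩

end Pool.Agent.Results.MP_2b5695_lc.ChangedStrings
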