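import Pool.Agent.TH733.RT.Use
import Pool.Agent.H591R3.CEX.Cover2

/-!
# Common translates of independent random oracles: counterexample computations

`xor2 A B` is the symmetric difference of the oracles `A` and `B`, the translate of `A` by `B`.

* For every sequence `B 0, B 1, ...` of oracles there is one oracle `A` such that, relative to every
  translate of `A` by a `B j`, at all levels `i` all optimization problems `(C, ρ)` with `C` in `Π_i`
  are computed by type 1 counterexample computations with a `Σ_i` oracle.
* Let the `B j` be independent random oracles. Almost surely, for every set `J` of numbers there is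
  one oracle `A` such that this holds for all `i`, relative to the translates by all `B j`, `j ∈ J`,
  while relative to the translates by the `B j` with `j` outside `J`, at every level `i`, some
  optimization problem `(C, ρ)` with `C` in `Π_i` is computed by no type 1 counterexample
  computation with a `Σ_i` oracle.

So every pattern of answers to the question is realised by the translates of one oracle.

Proof. `A` codes the computations relative to its translates by the `B j`, `j ∈ J`, masked by
`B j`; on the strings of length at most `n` it depends on `J` only below `log n`; for a fixed `J` the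
translate by an independent random oracle is random; and the oracles for which some level has the
positive property form a null set for slowly growing gauges (starting files `H591R3`).
-/

set_option autoImplicit false

namespace Pool.Agent.Results.MP_2b5695_lc.IndependentTranslates

open Pool.Agent.NPC Pool.Agent.H620R2.Gauge Pool.Agent.H591R3.CEX
open Pool.Agent.TH733.RT MeasureTheory

theorem result :
    (∀ B : ℕ → Oracle, ∃ A : Oracle, ∀ j i : ℕ, Type1 (xor2 A (B j)) i) ∧
    ∀ᵐ B ∂randomSeq, ∀ J : Set ℕ, ∃ A : Oracle,
      (∀ j ∈ J, ∀ i : ℕ, Type1 (xor2 A (B j)) i) ∧
      ∀ j ∉ J, ∀ i : ℕ, ¬ Type1 (xor2 A (B j)) i := by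
  obtain ⟨h1, h2⟩ := use_p (S := {A : Oracle | ∃ i, Type1 A i})
    (null_of_frequently3 slowG (fun _ hε => (slow_p hε).frequently) _ fun A hA => hA)
  refine ⟨fun B => ?_, ?_⟩
  · obtain ⟨A, hA⟩ := h1 B
    exact ⟨A, fun j i => type1_of_reduces (hA j) i⟩
  · filter_upwards [h2] with B hB J
    obtain ⟨A, h3, h4⟩ := hB J
    exact ⟨A, fun j hj i => type1_of_reduces (h3 j hj) i, fun j hj i hi => h4 j hj ⟨i, hi⟩⟩

end Pool.Agent.Results.MP_2b5695_lc.IndependentTranslates
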