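import Pool.Agent.TH654.RB.CE8
import Pool.Agent.TH678.PC.Few2
import Pool.Agent.TH678.PC.Adv3

/-!
# Counterexample computations near a suitable oracle

An adversary who knows the oracle `O` changes, for all large `n`, at most `g n` of the strings of
length at most `n`; the result is the oracle `A` (`Close g O A`).

(1) There is an oracle `O` such that, whenever `g` is polynomially bounded, relative to EVERY such
oracle `A`, for every `i`, all optimization problems `(C, ρ)` with `C` in `Π_i` are computed by
counterexample computations of type 1 with a `Σ_i` oracle. And for every `g` tending to infinity,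
however slowly, this is the case for some such `A` relative to which `NP ≠ coNP`.

(2) If `g` is not polynomially bounded then every oracle `O` can be changed in this way into an
oracle `A` relative to which some optimization problem `(C, ρ)` with `C` in `P` is not computed by any
counterexample computation of type 1.

So no polynomial number of changes of `O` makes the statement of the question true for any `i`, and
for `i = 0` every superpolynomial number of changes of any oracle does.

The proof of (1). The oracle `O` contains, for all optimization problems, the bits of the best
solutions relative to the oracle `O` changed on the strings of a list, in a code that can be read in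
spite of polynomially many changes (`TH678/EL`). For `i = 0`: relative to `A`, the algorithm keeps a
list of strings on which `A` and `O` differ, presents the solution `y` which is the best one for the
oracle changed on the list, and, if it gets a counterexample `z`, it finds a new string on which `A`
and `O` differ among the questions asked in the computations of `C(x, y)`, `C(x, z)`, `ρ(y)` and
`ρ(z)` relative to `A`. For `i > 0`: a set in `NP` contains the list of all the changed strings
(`TT` of `TH654/RB/SP5`), and this gives the best solution without the adversary.

The proof of (2). Relative to the oracle `A` of `TH678.EL.many_line`, the end of a single line, on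
which the positions of the vertices can be read off, can not be found in polynomial time. In the
optimization problem the solutions are the vertices on the line with their positions as values. An
adversary who presents the next vertex can be simulated in polynomial time.
-/

set_option autoImplicit false

namespace Pool.Agent.Results.MP_2b5695_lc.PolynomiallyManyChanges

open Pool.Agent.NPC Pool.Agent.H620R2.Gauge Pool.Agent.H591R3.CEX Filter
open Pool.Agent.W900.CH (Close)

/-- The function `g` is polynomially bounded. (For nondecreasing `g`: `g n ≤ n ^ c` for some `c` and
all large `n`.) -/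
def PolyBounded (g : ℕ → ℝ) : Prop := ∃ c : ℕ, ∀ᶠ n : ℕ in atTop, ∃ m ≥ n, g m ≤ (n : ℝ) ^ c

/-- **Counterexample computations near a suitable oracle.** -/
theorem result :
    (∃ O : Oracle,
      (∀ g : ℕ → ℝ, PolyBounded g → ∀ A, Close g O A → ∀ i, Type1 A i) ∧
      (∀ g : ℕ → ℝ, Tendsto g atTop atTop → ∃ A, Close g O A ∧
        (∃ L, IsNP A L ∧ ¬ IsNP A Lᶜ) ∧ ∀ i, Type1 A i)) ∧
    (∀ g : ℕ → ℝ, ¬ PolyBounded g → ∀ O : Oracle, ∃ A, Close g O A ∧ ¬ Type1 A 0) := by
  refine ⟨?_, fun g hg O => ?_⟩
  · obtain ⟨O, hO⟩ := TH654.RB.exists_type1
    have hall : ∀ g : ℕ → ℝ, PolyBounded g → ∀ A, Close g O A → ∀ i, Type1 A i :=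
      fun g hg A hA => hO A (TH678.PC.dist_poly hg hA)
    refine ⟨O, hall, fun g hg => ?_⟩
    obtain ⟨g', hg'⟩ : ∃ g' : ℕ → ℝ, g' = fun n => min (g n) n := ⟨_, rfl⟩
    have h1 : Tendsto g' atTop atTop := by
      rw [hg']
      exact tendsto_atTop_mono' atTop (Eventually.of_forall fun n => le_rfl)
        (tendsto_atTop_atTop.2 fun b => by
          obtain ⟨i, hi⟩ := tendsto_atTop_atTop.1 hg b
          obtain ⟨j, hj⟩ := exists_nat_ge b
          exact ⟨max i j, fun a ha => le_min (hi a (le_trans (le_max_left _ _) ha))
            (hj.trans (by exact_mod_cast le_trans (le_max_right _ _) ha))⟩)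
    obtain ⟨A, hA, hL, -⟩ := TH678.PC.exists_proper h1 O
    refine ⟨A, ?_, hL, hall g' ⟨1, ?_⟩ A hA⟩
    · unfold Close at hA ⊢
      filter_upwards [hA] with n hn
      exact hn.trans (by rw [hg']; exact min_le_left _ _)
    · filter_upwards with n
      exact ⟨n, le_rfl, by rw [hg', pow_one]; exact min_le_right _ _⟩
  · obtain ⟨A, hA, S, P, hS, hP, h⟩ := TH678.EL.many_line hg O
    exact ⟨A, hA, TH654.RB.not_type1 hS hP h⟩

end Pool.Agent.Results.MP_2b5695_lc.PolynomiallyManyChanges
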