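import Pool.Agent.TH93.CE.Law

/-!
# Counterexample computations relative to a random oracle and the length of the solutions

`OptProblem A i C ρ` says that `(C, ρ)` is an optimization problem with `C` in `Π_i` relative to `A`
and `ρ` computable in polynomial time relative to `A` (numbers are identified with bit strings in
length-lexicographic order, `str y` is the string with number `y`). `Comp1 A i C ρ` says that it is
computed by a counterexample computation of type 1 with an oracle in `Σ_i` relative to `A`.
`NiceT (fun n => n) g` says that `g (n)` is computed in unary in polynomial time.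

Theorem. Relative to almost every oracle `A`, for all such `g` and all levels `i`, the following
are equivalent:

1. `g (n) = O(log n)`;
2. all optimization problems `(C, ρ)` with `C` in `Π_i` such that, for every `x`, the function `ρ`
   has at most `2 ^ g (|x|)` different values on the feasible solutions of `x`, are computed;
3. all those with `|ρ (y)| ≤ g (|x|)` for all feasible solutions `y` of `x` are computed;
4. all those with `ρ (y) = y` and `|y| ≤ g (|x|)` for all feasible solutions `y` of `x` are computed.

So the known positive result for `ρ (y) < |x|` holds, relative to a random oracle, for polynomially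
many values and not for more.
-/

set_option autoImplicit false

namespace Pool.Agent.Results.MP_2b5695_lc.SolutionLength

open MeasureTheory Pool.Agent.H620R2.Gauge Pool.Agent.H591R3.CEX Pool.Agent.TH93.GL
open Pool.Agent.TH93.CE
open Pool.Agent.H628R3.RO (randomOracle)

/-- **Counterexample computations and the length of the solutions.** -/
theorem result : ∀ᵐ A ∂randomOracle, ∀ g : ℕ → ℕ, NiceT (fun n => n) g → ∀ i : ℕ, List.TFAE [
    ∃ c : ℕ, ∀ n, g n ≤ c * (Nat.log 2 n + 1),
    ∀ (C : ℕ → ℕ → Prop) (ρ : ℕ → ℕ), OptProblem A i C ρ →
      (∀ x, (ρ '' {y | C x y}).ncard ≤ 2 ^ g (str x).length) → Comp1 A i C ρ,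
    ∀ (C : ℕ → ℕ → Prop) (ρ : ℕ → ℕ), OptProblem A i C ρ →
      (∀ x y, C x y → (str (ρ y)).length ≤ g (str x).length) → Comp1 A i C ρ,
    ∀ C : ℕ → ℕ → Prop, OptProblem A i C id →
      (∀ x y, C x y → (str y).length ≤ g (str x).length) → Comp1 A i C id] :=
  law

end Pool.Agent.Results.MP_2b5695_lc.SolutionLength
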